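import Mathlib
import Pool.Agent.Helper95.FL.Stmts2

set_option autoImplicit false

/-!
# Project XT, item N2: choice of the parameters
-/

namespace Pool.Agent.Helper97.FL

open Pool.Agent.Helper95.FL

/-- The bound for the exponents. -/
theorem exp_bound (L u : ℕ) (hu : 900 ≤ u) (h : 1024 * u ^ 2 ≤ L + 64 * u) :
    7 + 144 * ((u + 17) * (6 * u + 127)) ≤ L := by
  nlinarith [Nat.mul_le_mul hu (le_refl u)]

theorem real_part (n P p u : ℕ) (hn : 200 ≤ n) (hp : 2 ^ (u + 16) ≤ p + 1)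
    (hP : n / 6 < P) (hl : Real.sqrt (Real.logb 2 n) / 32 ≤ ((u + 1 : ℕ) : ℝ)) :
    (n : ℝ) ^ 2 * 2 ^ (Real.sqrt (Real.logb 2 n) / 32) ≤
      ((p + 1) * (P * (P - 1)) : ℝ) / 648 := by
  have h1 : (2 : ℝ) ^ (Real.sqrt (Real.logb 2 n) / 32) ≤ 2 ^ (u + 1) := by
    rw [← Real.rpow_natCast]
    exact Real.rpow_le_rpow_of_exponent_le (by norm_num) hl
  have h2 : (2 : ℝ) ^ (u + 1) * 32768 ≤ (p : ℝ) + 1 := by
    have : ((2 ^ (u + 16) : ℕ) : ℝ) ≤ ((p + 1 : ℕ) : ℝ) := by exact_mod_cast hp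
    push_cast at this
    calc (2 : ℝ) ^ (u + 1) * 32768 = 2 ^ (u + 16) := by
          rw [show (32768 : ℝ) = 2 ^ 15 by norm_num, ← pow_add]
      _ ≤ _ := this
  have h3 : n + 1 ≤ 6 * P := by omega
  have h4 : n ≤ 6 * (P - 1) + 5 := by omega
  have hP1 : 1 ≤ P := by omega
  have h3' : (n : ℝ) + 1 ≤ 6 * P := by exact_mod_cast h3
  have h4' : (n : ℝ) ≤ 6 * ((P : ℝ) - 1) + 5 := by
    have : (n : ℝ) ≤ ((6 * (P - 1) + 5 : ℕ) : ℝ) := by exact_mod_cast h4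
    push_cast [Nat.cast_sub hP1] at this
    exact this
  have hn' : (200 : ℝ) ≤ n := by exact_mod_cast hn
  have h5 : (n : ℝ) ^ 2 ≤ 37 * (P * ((P : ℝ) - 1)) := by
    have h6 : ((n : ℝ) + 1) * ((n : ℝ) - 5) ≤ (6 * P) * (6 * ((P : ℝ) - 1)) :=
      mul_le_mul h3' (by linarith) (by linarith) (by linarith)
    have h7 : 200 * (n : ℝ) ≤ (n : ℝ) ^ 2 := by
      rw [pow_two]
      exact mul_le_mul_of_nonneg_right hn' (by linarith)
    have h8 : ((n : ℝ) + 1) * ((n : ℝ) - 5) = (n : ℝ) ^ 2 - 4 * n - 5 := by ring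
    have h9 : (6 * (P : ℝ)) * (6 * ((P : ℝ) - 1)) = 36 * (P * ((P : ℝ) - 1)) := by ring
    rw [h8, h9] at h6
    linarith
  have hPP : 0 ≤ (P : ℝ) * ((P : ℝ) - 1) := by
    have : (1 : ℝ) ≤ P := by exact_mod_cast hP1
    exact mul_nonneg (by linarith) (by linarith)
  have hpow : (0 : ℝ) < 2 ^ (u + 1) := by positivity
  calc (n : ℝ) ^ 2 * 2 ^ (Real.sqrt (Real.logb 2 n) / 32)
      ≤ (n : ℝ) ^ 2 * 2 ^ (u + 1) := mul_le_mul_of_nonneg_left h1 (by positivity)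
    _ ≤ (37 * (P * ((P : ℝ) - 1))) * 2 ^ (u + 1) :=
        mul_le_mul_of_nonneg_right h5 hpow.le
    _ ≤ (2 ^ (u + 1) * 32768) * (P * ((P : ℝ) - 1)) / 648 := by
        have : 0 ≤ (P : ℝ) * ((P : ℝ) - 1) * 2 ^ (u + 1) := mul_nonneg hPP hpow.le
        rw [le_div_iff₀ (by norm_num)]
        have e1 : 37 * (P * ((P : ℝ) - 1)) * 2 ^ (u + 1) * 648 =
            23976 * ((P : ℝ) * ((P : ℝ) - 1) * 2 ^ (u + 1)) := by ring
        have e2 : 2 ^ (u + 1) * 32768 * (P * ((P : ℝ) - 1)) =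
            32768 * ((P : ℝ) * ((P : ℝ) - 1) * 2 ^ (u + 1)) := by ring
        rw [e1, e2]
        exact mul_le_mul_of_nonneg_right (by norm_num) this
    _ ≤ ((p + 1) * (P * (P - 1)) : ℝ) / 648 := by
        have := mul_le_mul_of_nonneg_right h2 hPP
        linarith

theorem log_large (A : ℕ) : ∃ N : ℕ, ∀ n : ℕ, N ≤ n → A ≤ Nat.log 2 n :=
  ⟨2 ^ A, fun _ hn => Nat.le_log_of_pow_le (by norm_num) hn⟩

/-- The bound for the square root of the logarithm. -/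
theorem sqrt_log_bound (n L u : ℕ) (hn0 : n ≠ 0) (hnL : n < 2 ^ (L + 1))
    (h : L + 1 ≤ (32 * (u + 1)) ^ 2) :
    Real.sqrt (Real.logb 2 n) / 32 ≤ ((u + 1 : ℕ) : ℝ) := by
  have h1 : Real.logb 2 n ≤ (L + 1 : ℕ) := by
    have hpos : (0 : ℝ) < n := by exact_mod_cast Nat.pos_of_ne_zero hn0
    rw [Real.logb_le_iff_le_rpow (by norm_num) hpos, Real.rpow_natCast]
    exact_mod_cast hnL.le
  have h2 : Real.logb 2 n ≤ (32 * ((u + 1 : ℕ) : ℝ)) ^ 2 :=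
    h1.trans (by exact_mod_cast h)
  have h3 : Real.sqrt (Real.logb 2 n) ≤ 32 * ((u + 1 : ℕ) : ℝ) :=
    Real.sqrt_le_iff.2 ⟨by positivity, h2⟩
  rw [div_le_iff₀ (by norm_num)]
  linarith

theorem arith_part (L : ℕ) (hLbig : 1000000000 ≤ L) :
    ∃ u : ℕ, 900 ≤ u ∧ 1024 * u ^ 2 ≤ L + 64 * u ∧ L + 1 ≤ (32 * (u + 1)) ^ 2 := by
  obtain ⟨s, hs⟩ : ∃ s, s = Nat.sqrt (L + 1) := ⟨_, rfl⟩
  have hs1 : s * s ≤ L + 1 := by rw [hs]; exact Nat.sqrt_le (L + 1)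
  have hs2 : L + 1 < (s + 1) * (s + 1) := by rw [hs]; exact Nat.lt_succ_sqrt (L + 1)
  have hs3 : 31000 ≤ s := by
    by_contra hc
    have h1 : s + 1 ≤ 31000 := by omega
    have h2 := Nat.mul_le_mul h1 h1
    omega
  obtain ⟨u, v, huv, hv⟩ : ∃ u v, s + 1 = 32 * u + v ∧ v < 32 :=
    ⟨(s + 1) / 32, (s + 1) % 32, by omega, by omega⟩
  refine ⟨u, by omega, ?_, ?_⟩
  · have hs4 : s = 32 * u + v - 1 := by omega
    have h5 : 32 * u ≤ s + 1 := by omega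
    nlinarith [Nat.mul_le_mul h5 h5]
  · have h5 : s + 1 ≤ 32 * (u + 1) := by omega
    have := Nat.mul_le_mul h5 h5
    rw [pow_two]
    omega

/-- N-2. Choice of the parameters. -/
theorem stNum : StNum := by
  obtain ⟨n₀, hn₀⟩ := log_large 1000000000
  refine ⟨n₀ + 200, fun n hn => ?_⟩
  have hn200 : 200 ≤ n := by omega
  have hn0 : n ≠ 0 := by omega
  refine ⟨by omega, ?_⟩
  have hLbig := hn₀ n (by omega)
  have hLn : 2 ^ Nat.log 2 n ≤ n := Nat.pow_log_le_self 2 hn0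
  have hnL : n < 2 ^ (Nat.log 2 n + 1) := Nat.lt_pow_succ_log_self (by norm_num) n
  revert hLbig hLn hnL
  generalize Nat.log 2 n = L
  intro hLbig hLn hnL
  obtain ⟨u, hu1, hLu, hLu2⟩ := arith_part L hLbig
  have hexp := exp_bound L u hu1 hLu
  obtain ⟨p, hp, hp1, hp2⟩ := Nat.exists_prime_lt_and_le_two_mul (2 ^ (u + 16)) (by positivity)
  obtain ⟨P, hP, hP1, hP2⟩ := Nat.exists_prime_lt_and_le_two_mul (n / 6) (by omega)
  have hpow : 2 * 2 ^ (u + 16) = 2 ^ (u + 17) := by rw [← pow_succ']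
  have hp3 : p + 1 ≤ 2 ^ (u + 18) := by
    have : 1 ≤ 2 ^ (u + 17) := Nat.one_le_two_pow
    have h18 : 2 ^ (u + 18) = 2 * 2 ^ (u + 17) := by rw [← pow_succ']
    omega
  have hp4 : (p + 1) ^ 3 ≤ 2 ^ (3 * u + 54) := by
    calc (p + 1) ^ 3 ≤ (2 ^ (u + 18)) ^ 3 := Nat.pow_le_pow_left hp3 3
      _ = 2 ^ (3 * u + 54) := by
        rw [← pow_mul, show (u + 18) * 3 = 3 * u + 54 by ring]
  refine ⟨p, 2 * (3 * u + 61) + 5, 3 * u + 61, P, hp, ⟨3 * u + 61 + 2, by ring⟩, by omega,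
    by omega, by omega, ?_, ?_, hP, by omega, ?_, ?_⟩
  · calc 102 * (p + 1) ^ 3 ≤ 102 * 2 ^ (3 * u + 54) := Nat.mul_le_mul_left _ hp4
      _ < 2 ^ 7 * 2 ^ (3 * u + 54) :=
          Nat.mul_lt_mul_of_pos_right (by norm_num) (by positivity)
      _ = 2 ^ (3 * u + 61) := by
        rw [← pow_add, show 7 + (3 * u + 54) = 3 * u + 61 by ring]
  · calc 204 * 2 ^ (3 * u + 61) * (p + 1) ^ 3
        ≤ 2 ^ 8 * 2 ^ (3 * u + 61) * 2 ^ (3 * u + 54) :=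
          Nat.mul_le_mul (Nat.mul_le_mul_right _ (by norm_num)) hp4
      _ = 2 ^ (6 * u + 123) := by
        rw [← pow_add, ← pow_add, show 8 + (3 * u + 61) + (3 * u + 54) = 6 * u + 123 by ring]
      _ ≤ 2 ^ L := Nat.pow_le_pow_right (by norm_num) (by nlinarith)
      _ ≤ n := hLn
  · have h1 : p ≤ 2 ^ (u + 17) := by omega
    have h2 : 108 * p ^ (144 * (2 * (3 * u + 61) + 5)) ≤ n := by
      calc 108 * p ^ (144 * (2 * (3 * u + 61) + 5))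
          ≤ 2 ^ 7 * (2 ^ (u + 17)) ^ (144 * (2 * (3 * u + 61) + 5)) :=
            Nat.mul_le_mul (by norm_num) (Nat.pow_le_pow_left h1 _)
        _ = 2 ^ (7 + 144 * ((u + 17) * (6 * u + 127))) := by
            rw [← pow_mul, ← pow_add, show 7 + (u + 17) * (144 * (2 * (3 * u + 61) + 5)) =
              7 + 144 * ((u + 17) * (6 * u + 127)) by ring]
        _ ≤ 2 ^ L := Nat.pow_le_pow_right (by norm_num) hexp
        _ ≤ n := hLn
    generalize p ^ (144 * (2 * (3 * u + 61) + 5)) = X at h2 ⊢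
    omega
  · exact real_part n P p u hn200 (by omega) hP1 (sqrt_log_bound n L u hn0 hnL hLu2)

end Pool.Agent.Helper97.FL
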